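import Mathlib
import Pool.Agent.H59.FY2

set_option autoImplicit false

namespace Pool.Agent.Results.MP_0baeaf_nt.Quarter

/-- `L ≥ 1 / (log 2 - (1/4) log 5)` (about 3.4389) for the `5x+1` map: for every positive `γ`
below that value, infinitely many `x > 0` first reach 1 after more than `γ log x` steps. -/
theorem result :
    ∀ γ : ℝ, 0 < γ → γ < 1 / (Real.log 2 - (1 / 4) * Real.log 5) →
      {x : ℕ | 0 < x ∧ ∃ k : ℕ,
          (fun n : ℕ => if n % 2 = 0 then n / 2 else (5 * n + 1) / 2)^[k] x = 1 ∧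
          (∀ j : ℕ, j < k →
            (fun n : ℕ => if n % 2 = 0 then n / 2 else (5 * n + 1) / 2)^[j] x ≠ 1) ∧
          γ * Real.log (x : ℝ) < (k : ℝ)}.Infinite :=
  fun γ h0 h1 => Pool.Agent.H59.FY.main γ h0 h1

end Pool.Agent.Results.MP_0baeaf_nt.Quarter
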